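import Pool.Agent.H30.LieQ

open Pool.Agent.H30.LieQ

theorem Pool.Agent.Results.MP_b13462_lc.Undec.result :
    ¬ ∃ f : List (ℕ × ℕ) × ℕ × ℕ → Bool, Computable f ∧ ∀ q : QI,
      (f q.code = true ↔ ∀ (L : Type) [LieRing L] [Finite L], q.Holds L) :=
  undec
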